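import Mathlib
import Pool.Agent.Lib.MP_a5f47e_lc.Embed

set_option autoImplicit false

namespace Pool.Agent.Lib.MP_a5f47e_lc

open Topology Filter

section closed
variable {H : ℕ → Type} [∀ n, AddCommGroup (H n)]
variable {V : Type} [AddCommGroup V]

/-- The points whose orbit under the n-th basic subgroup meets O. -/
def WsetV {X : Type} (ι : V →+ ∀ i, H i) (act : V → X → X) (n : ℕ) (O : Set X) : Set X :=
  {z | ∃ h, Agree n (ι h) 0 ∧ act h z ∈ O}

/-- The orbits under the n-th basic subgroup have the same closure. -/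
def RelV {X : Type} [TopologicalSpace X] (ι : V →+ ∀ i, H i) (act : V → X → X) (n : ℕ)
    (z z' : X) : Prop :=
  ∀ O, IsOpen O → (z ∈ WsetV ι act n O ↔ z' ∈ WsetV ι act n O)

theorem tame_of_hom [TopologicalSpace V] [∀ n, Countable (H n)] (hT : ∀ n, Tor (H n))
    (hlin : ∀ p : ℕ, p.Prime → ∃ n0, ∀ i, n0 ≤ i → LinC p (H i)) (ι : V →+ ∀ i, H i)
    (hnh : ∀ s ∈ 𝓝 (0 : V), ∃ n, ∀ h, Agree n (ι h) 0 → h ∈ s)
    (hcl : ∀ x, (∀ n, ∃ k, Agree n (ι k) x) → ∃ k, ι k = x) : Tame V := by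
  intro X _ _ act h0 hadd hcont
  let _ : MeasurableSpace (X × X) := borel (X × X)
  have : BorelSpace (X × X) := ⟨rfl⟩
  have hc1 : ∀ g, Continuous (act g) := fun g => hcont.comp (Continuous.prodMk_right g)
  have hcomm : ∀ g h x, act g (act h x) = act h (act g x) := fun g h x => by
    rw [← hadd, ← hadd, add_comm]
  have hz0 : ∀ n, Agree n (ι 0) 0 := fun n => by rw [map_zero]; exact Agree.refl _ _
  have hW : ∀ n O, IsOpen O → IsOpen (WsetV ι act n O) := by
    intro n O hO
    have : WsetV ι act n O = ⋃ h : {h : V // Agree n (ι h) 0}, act h.1 ⁻¹' O := by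
      ext z; simp [WsetV]
    rw [this]
    exact isOpen_iUnion fun h => hO.preimage (hc1 _)
  have rel_act : ∀ n k z z', RelV ι act n z z' → RelV ι act n (act k z) (act k z') := by
    intro n k z z' h O hO
    have := h (act k ⁻¹' O) (hO.preimage (hc1 k))
    simp only [WsetV, Set.mem_ofPred_eq, Set.mem_preimage] at this ⊢
    simp only [hcomm _ k]
    exact this
  have rel_half : ∀ n z z', RelV ι act (n + 1) z z' → ∀ O, IsOpen O →
      z ∈ WsetV ι act n O → z' ∈ WsetV ι act n O := by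
    rintro n z z' h O hO ⟨k, hk, hz⟩
    have h1 : z ∈ WsetV ι act (n + 1) (act k ⁻¹' O) := ⟨0, hz0 _, by rwa [h0]⟩
    obtain ⟨k', hk', hz'⟩ := (h _ (hO.preimage (hc1 k))).1 h1
    refine ⟨k + k', fun i hi => ?_, by rwa [hadd]⟩
    have a1 : ι k i = 0 := hk i hi
    have a2 : ι k' i = 0 := hk' i (by omega)
    simp [a1, a2]
  have rel_inv : ∀ n (g g' : V) x y, RelV ι act n (act g x) y → Agree n (ι g) (ι g') →
      RelV ι act n (act g' x) y := by
    intro n g g' x y hg a O hO
    rw [← hg O hO]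
    have key : ∀ u v : V, Agree n (ι u) (ι v) → act u x ∈ WsetV ι act n O →
        act v x ∈ WsetV ι act n O := by
      rintro u v huv ⟨k, hk, hz⟩
      refine ⟨k + u - v, fun i hi => ?_, ?_⟩
      · have a1 : ι k i = 0 := hk i hi
        simp [a1, huv i hi]
      · rw [← hadd, sub_add_cancel, hadd]
        exact hz
    exact ⟨key _ _ a.symm, key _ _ a⟩
  let C : X × X → ℕ → Set (∀ i, H i) := fun ω n =>
    {g | ∃ k, Agree n (ι k) g ∧ RelV ι act n (act k ω.1) ω.2}
  have hC : ∀ ω, CS (C ω) := by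
    intro ω
    refine ⟨?_, ?_, ?_⟩
    · rintro n g g' ⟨k, hk, hg⟩ a
      exact ⟨k, hk.trans a, hg⟩
    · rintro n g ⟨k, hk, hg⟩
      exact ⟨k, hk.mono (by omega), fun O hO =>
        ⟨rel_half n _ _ hg O hO, rel_half n _ _ (fun O hO => (hg O hO).symm) O hO⟩⟩
    · rintro n _ ⟨a, a1, ha⟩ _ ⟨b, b1, hb⟩ _ ⟨c, c1, hc⟩
      refine ⟨a - b + c, fun i hi => by simp [a1 i hi, b1 i hi, c1 i hi], fun O hO => ?_⟩
      have hab : RelV ι act n (act a ω.1) (act b ω.1) :=
        fun O hO => (ha O hO).trans (hb O hO).symm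
      have := rel_act n (c - b) _ _ hab O hO
      rw [← hadd, ← hadd, sub_add_cancel] at this
      have e : a - b + c = c - b + a := by abel
      rw [e, this]
      exact hc O hO
  have hmeas0 : ∀ (g : V) m, MeasurableSet {ω : X × X | RelV ι act m (act g ω.1) ω.2} := by
    intro g m
    have : {ω : X × X | RelV ι act m (act g ω.1) ω.2} = ⋂ O ∈ TopologicalSpace.countableBasis X,
        ({ω : X × X | act g ω.1 ∈ WsetV ι act m O} ∩ {ω : X × X | ω.2 ∈ WsetV ι act m O}) ∪
        ({ω : X × X | act g ω.1 ∈ WsetV ι act m O}ᶜ ∩ {ω : X × X | ω.2 ∈ WsetV ι act m O}ᶜ) := by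
      ext ω
      simp only [Set.mem_iInter, Set.mem_union, Set.mem_inter_iff, Set.mem_compl_iff,
        Set.mem_ofPred_eq]
      constructor
      · intro h O hO
        have := h O (TopologicalSpace.isOpen_of_mem_countableBasis hO)
        tauto
      · intro h O hO
        have key : ∀ z z', (∀ O ∈ TopologicalSpace.countableBasis X,
            z ∈ WsetV ι act m O → z' ∈ WsetV ι act m O) → z ∈ WsetV ι act m O →
            z' ∈ WsetV ι act m O := by
          rintro z z' hzz ⟨k, hk, hz⟩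
          obtain ⟨O', hO', hz', hsub⟩ :=
            (TopologicalSpace.isBasis_countableBasis X).exists_subset_of_mem_open hz hO
          obtain ⟨k', hk', hz''⟩ := hzz O' hO' ⟨k, hk, hz'⟩
          exact ⟨k', hk', hsub hz''⟩
        constructor
        · refine key _ _ fun O' hO' => ?_
          have := h O' hO'
          tauto
        · refine key _ _ fun O' hO' => ?_
          have := h O' hO'
          tauto
    rw [this]
    refine MeasurableSet.biInter (TopologicalSpace.countable_countableBasis X) fun O hO => ?_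
    have hO' := hW m O (TopologicalSpace.isOpen_of_mem_countableBasis hO)
    have m1 : MeasurableSet {ω : X × X | act g ω.1 ∈ WsetV ι act m O} :=
      (hO'.preimage ((hc1 g).comp continuous_fst)).measurableSet
    have m2 : MeasurableSet {ω : X × X | ω.2 ∈ WsetV ι act m O} :=
      (hO'.preimage continuous_snd).measurableSet
    exact (m1.inter m2).union (m1.compl.inter m2.compl)
  have hmeas : ∀ g m, MeasurableSet {ω | g ∈ C ω m} := by
    intro g m
    by_cases hg : ∃ k, Agree m (ι k) g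
    · obtain ⟨k0, hk0⟩ := hg
      convert hmeas0 k0 m using 1
      ext ω
      constructor
      · rintro ⟨k, hk, hr⟩
        exact rel_inv m k k0 _ _ hr (hk.trans hk0.symm)
      · intro hr
        exact ⟨k0, hk0, hr⟩
    · convert MeasurableSet.empty
      ext ω
      constructor
      · rintro ⟨k, hk, -⟩
        exact hg ⟨k, hk⟩
      · exact False.elim
  have : {p : X × X | ∃ g, act g p.1 = p.2} = {ω | ∃ g, ∀ m, g ∈ C ω m} := by
    ext ω
    constructor
    · rintro ⟨g, hg⟩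
      refine ⟨ι g, fun m => ⟨g, Agree.refl _ _, fun O _ => ?_⟩⟩
      rw [hg]
    · rintro ⟨x, hx⟩
      obtain ⟨g, rfl⟩ := hcl x fun n => (hx n).imp fun k hk => hk.1
      have hg : ∀ n, RelV ι act n (act g ω.1) ω.2 := fun n => by
        obtain ⟨k, hk, hr⟩ := hx n
        exact rel_inv n k g _ _ hr hk
      refine ⟨g, ?_⟩
      by_contra hne
      obtain ⟨O1, O2, h1, h2, m1, m2, hd⟩ := t2_separation hne
      have hc2 : Continuous fun h => act h (act g ω.1) := hcont.comp (Continuous.prodMk_left _)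
      have hn : (fun h => act h (act g ω.1)) ⁻¹' O1 ∈ 𝓝 (0 : V) :=
        (h1.preimage hc2).mem_nhds (by simpa [h0] using m1)
      obtain ⟨n, hn'⟩ := hnh _ hn
      obtain ⟨k, hk, hz⟩ := (hg n O2 h2).2 ⟨0, hz0 _, by rwa [h0]⟩
      exact Set.disjoint_left.1 hd (hn' k hk) hz
  rw [this]
  exact meas_inter hT hlin C hC hmeas

/-- The closure of the range of a homomorphism into the product. -/
def Cl (θ : V →+ ∀ i, H i) : AddSubgroup (∀ i, H i) where
  carrier := {x | ∀ n, ∃ l, Agree n (θ l) x}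
  zero_mem' := fun n => ⟨0, by rw [map_zero]; exact Agree.refl _ _⟩
  add_mem' := fun {a b} ha hb n => by
    obtain ⟨k, hk⟩ := ha n
    obtain ⟨l, hl⟩ := hb n
    exact ⟨k + l, fun i hi => by simp [hk i hi, hl i hi]⟩
  neg_mem' := fun {a} ha n => by
    obtain ⟨k, hk⟩ := ha n
    exact ⟨-k, fun i hi => by simp [hk i hi]⟩

variable [∀ n, TopologicalSpace (H n)]

lemma Cl_nhds (θ : V →+ ∀ i, H i) {s : Set (Cl θ)} (hs : s ∈ 𝓝 (0 : Cl θ)) :
    ∃ n, ∀ h : Cl θ, Agree n h.1 0 → h ∈ s := by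
  obtain ⟨t, ht, hts⟩ := (mem_nhds_subtype _ _ _).1 hs
  obtain ⟨n, hn⟩ := agree_of_nhds ht
  exact ⟨n, fun h hh => hts (hn _ hh)⟩

theorem Cl_tame [∀ n, Countable (H n)] (hT : ∀ n, Tor (H n))
    (hlin : ∀ p : ℕ, p.Prime → ∃ n0, ∀ i, n0 ≤ i → LinC p (H i)) (θ : V →+ ∀ i, H i) :
    Tame (Cl θ) := by
  refine tame_of_hom hT hlin (Cl θ).subtype (fun s hs => Cl_nhds θ hs) fun x hx => ?_
  refine ⟨⟨x, fun n => ?_⟩, rfl⟩
  obtain ⟨k, hk⟩ := hx n
  obtain ⟨l, hl⟩ := k.2 n
  exact ⟨l, hl.trans hk⟩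

variable [∀ n, DiscreteTopology (H n)]

lemma Cl_closed (θ : V →+ ∀ i, H i) : IsClosed (Cl θ : Set (∀ i, H i)) := by
  refine isClosed_of_closure_subset fun x hx n => ?_
  have h1 : Set.pi {i | i < n} (fun i => ({x i} : Set (H i))) ∈ 𝓝 x :=
    set_pi_mem_nhds (Set.finite_lt_nat n) fun i _ => (isOpen_discrete _).mem_nhds rfl
  obtain ⟨y, hy1, hy2⟩ := mem_closure_iff_nhds.1 hx _ h1
  obtain ⟨l, hl⟩ := hy2 n
  exact ⟨l, hl.trans fun i hi => hy1 i hi⟩

lemma Cl_agree_nhds (θ : V →+ ∀ i, H i) (n : ℕ) :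
    {h : Cl θ | Agree n h.1 0} ∈ 𝓝 (0 : Cl θ) :=
  (mem_nhds_subtype _ _ _).2 ⟨_, agree_mem_nhds n, fun _ h => h⟩

theorem exists_onto {G : Type} [AddCommGroup G] [TopologicalSpace G] [IsTopologicalAddGroup G]
    [PolishSpace G] [∀ n, IsTopologicalAddGroup (H n)] {B : ℕ → AddSubgroup G} (hB : IsBase B)
    (θ : V →+ ∀ i, H i) (ψ : V →+ G)
    (hC : ∀ j, ∃ n, ∀ l, Agree n (θ l) 0 → ψ l ∈ B j)
    (hS : ∀ m, ∀ g ∈ B m, ∃ l, Agree m (θ l) 0 ∧ g - ψ l ∈ B (m + 1)) :
    ∃ φ : Cl θ →+ G, Continuous φ ∧ ∀ g ∈ B 0, ∃ x, φ x = g := by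
  choose n hn using hC
  have hsep : ∀ y : G, (∀ j, y ∈ B j) → y = 0 := by
    intro y hy
    by_contra hne
    obtain ⟨j, hj⟩ := hB.basis {y}ᶜ (isOpen_compl_singleton.mem_nhds (Ne.symm hne))
    exact hj (hy j) rfl
  have hd : ∀ j l l' (x : ∀ i, H i), Agree (n j) (θ l) x → Agree (n j) (θ l') x →
      ψ l - ψ l' ∈ B j := by
    intro j l l' x h1 h2
    rw [← map_sub]
    exact hn j _ fun i hi => by simp [h1 i hi, h2 i hi]
  let R : (∀ i, H i) → G → Prop := fun x y => ∀ j l, Agree (n j) (θ l) x → y - ψ l ∈ B j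
  have hex : ∀ x : Cl θ, ∃ y, R x.1 y := by
    intro x
    choose l hl using x.2
    let N : ℕ → ℕ := fun j => ∑ i ∈ Finset.range (j + 1), n i
    have hN : ∀ i j, i ≤ j → n i ≤ N j := fun i j hij =>
      Finset.single_le_sum (f := n) (fun _ _ => Nat.zero_le _)
        (Finset.mem_range.2 (Nat.lt_succ_of_le hij))
    obtain ⟨y, hy⟩ := hB.complete (fun j => ψ (l (N j))) fun j =>
      hd j _ _ x.1 ((hl _).mono (hN j (j + 1) (by omega))) ((hl _).mono (hN j j le_rfl))
    refine ⟨y, fun j l' hl' => ?_⟩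
    have := (B j).add_mem (hy j) (hd j _ _ x.1 ((hl _).mono (hN j j le_rfl)) hl')
    simpa using this
  have huniq : ∀ (x : Cl θ) y y', R x.1 y → R x.1 y' → y = y' := by
    intro x y y' h1 h2
    rw [← sub_eq_zero]
    refine hsep _ fun j => ?_
    obtain ⟨l, hl⟩ := x.2 (n j)
    have := (B j).sub_mem (h1 j l hl) (h2 j l hl)
    simpa using this
  choose f hf using hex
  let φ : Cl θ →+ G := AddMonoidHom.mk' f (by
    intro a b
    refine huniq (a + b) _ _ (hf _) fun j l hl => ?_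
    obtain ⟨k, hk⟩ := a.2 (n j)
    have h1 := hf a j k hk
    have h2 := hf b j (l - k) fun i hi => by
      have := hl i hi
      simp only [AddSubgroup.coe_add, Pi.add_apply] at this
      simp [this, hk i hi]
    have := (B j).add_mem h1 h2
    rw [map_sub] at this
    convert this using 1
    abel)
  refine ⟨φ, continuous_of_continuousAt_zero φ ?_, fun g hg => ?_⟩
  · intro s hs
    rw [map_zero] at hs
    obtain ⟨j, hj⟩ := hB.basis s hs
    refine Filter.mem_map.2 (Filter.mem_of_superset (Cl_agree_nhds θ (n j)) fun x hx => hj ?_)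
    have := hf x j 0 (by rw [map_zero]; exact Agree.symm hx)
    rwa [map_zero, sub_zero] at this
  · choose! F hF1 hF2 using hS
    let σ : ℕ → V := fun m => Nat.rec 0 (fun m s => s + F m (g - ψ s)) m
    have hσ : ∀ m, σ (m + 1) = σ m + F m (g - ψ (σ m)) := fun m => rfl
    have h1 : ∀ m, g - ψ (σ m) ∈ B m := by
      intro m
      induction m with
      | zero => simpa [σ] using hg
      | succ m ih =>
        have := hF2 m _ ih
        rw [hσ, map_add]
        convert this using 1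
        abel
    obtain ⟨x, hx⟩ := exists_limit 0 (fun m => θ (σ m)) fun m i hi => by
      have := hF1 m _ (h1 m) i (by omega)
      simp only [hσ, map_add, Pi.add_apply, this, Pi.zero_apply, add_zero]
    have hx' : ∀ m, Agree m (θ (σ m)) x := fun m => by simpa using (hx m).symm
    refine ⟨⟨x, fun m => ⟨σ m, hx' m⟩⟩, huniq _ _ _ (hf _) fun j l hl => ?_⟩
    have a1 := hB.anti (le_max_right (n j) j) (h1 (max (n j) j))
    have a2 := hd j _ _ x ((hx' (max (n j) j)).mono (le_max_left _ _)) hl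
    have := (B j).add_mem a1 a2
    simpa using this

end closed

end Pool.Agent.Lib.MP_a5f47e_lc
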