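import Mathlib
import Pool.Agent.Lib.MP_a5f47e_lc.Embed

set_option autoImplicit false

namespace Pool.Agent.Lib.MP_a5f47e_lc

open Topology Filter

section alg
variable {A : Type} [AddCommGroup A]

lemma split_coprime {M : ℕ} (N : ℕ) (hN : 0 < N) :
    ∃ N' e : ℕ, 0 < N' ∧ N'.Coprime M ∧ N ∣ N' * M ^ e := by
  induction N using Nat.strong_induction_on with
  | _ N ih =>
    by_cases h : N.Coprime M
    · exact ⟨N, 0, hN, h, by simp⟩
    · obtain ⟨N1, hN1⟩ := Nat.gcd_dvd_left N M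
      have hg : 0 < Nat.gcd N M := Nat.gcd_pos_of_pos_left _ hN
      have hg1 : Nat.gcd N M ≠ 1 := h
      have h1 : 0 < N1 := Nat.pos_of_mul_pos_left (hN1 ▸ hN)
      have h2 : N1 < N := by
        have : 2 ≤ Nat.gcd N M := by omega
        nlinarith
      obtain ⟨N', e, a1, a2, a3⟩ := ih N1 h2 h1
      refine ⟨N', e + 1, a1, a2, ?_⟩
      rw [hN1, pow_succ, ← mul_assoc, mul_comm _ M]
      exact Nat.mul_dvd_mul (Nat.gcd_dvd_right N M) a3

lemma bezout_split {N M : ℕ} (h : N.Coprime M) (x : A) :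
    ∃ u v : ℤ, x = u • N • x + v • M • x := by
  obtain ⟨u, v, huv⟩ := Nat.isCoprime_iff_coprime.2 h
  refine ⟨u, v, ?_⟩
  rw [← natCast_zsmul, ← natCast_zsmul, ← mul_smul, ← mul_smul, ← add_smul, huv, one_smul]

lemma fin_mul (S : AddSubgroup A) {a b : ℕ} (ha : {x | x ∈ S ∧ a • x = 0}.Finite)
    (hb : {x | x ∈ S ∧ b • x = 0}.Finite) : {x | x ∈ S ∧ (a * b) • x = 0}.Finite := by
  refine Set.Finite.of_finite_fibers (fun x => b • x) (ha.subset ?_) ?_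
  · rintro _ ⟨x, hx, rfl⟩
    exact ⟨S.nsmul_mem hx.1 b, by rw [← mul_smul]; exact hx.2⟩
  · rintro _ ⟨x0, hx0, rfl⟩
    refine (hb.image fun y => y + x0).subset ?_
    rintro x ⟨hx, hx2⟩
    have hx3 : b • x = b • x0 := hx2
    exact ⟨x - x0, ⟨S.sub_mem hx.1 hx0.1, by rw [smul_sub, hx3, sub_self]⟩, sub_add_cancel _ _⟩

lemma fin_smooth (S : AddSubgroup A) (m : ℕ)
    (h : ∀ p : ℕ, p.Prime → p ≤ m → {x | x ∈ S ∧ p • x = 0}.Finite) (N : ℕ) (hN : N ≠ 0)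
    (hp : ∀ p : ℕ, p.Prime → p ∣ N → p ≤ m) : {x | x ∈ S ∧ N • x = 0}.Finite := by
  induction N using Nat.recOnMul with
  | zero => exact absurd rfl hN
  | one => exact (Set.finite_singleton 0).subset fun x hx => by simpa using hx.2
  | prime p hp' => exact h p hp' (hp p hp' dvd_rfl)
  | mul a b iha ihb =>
    exact fin_mul S (iha (left_ne_zero_of_mul hN) fun p h1 h2 => hp p h1 (h2.mul_right b))
      (ihb (right_ne_zero_of_mul hN) fun p h1 h2 => hp p h1 (h2.mul_left a))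

lemma stab (S : AddSubgroup A) {M : ℕ} (htor : ∀ x ∈ S, ∃ N : ℕ, 0 < N ∧ N • x = 0)
    (hfin : {x | x ∈ S ∧ M • x = 0}.Finite) :
    ∃ J : ℕ, ∀ x ∈ S, ∃ y ∈ S, M ^ J • x = M ^ (J + 1) • y := by
  have h1 : ∀ s : A, ∃ t : ℕ, (∃ y ∈ S, s = M ^ t • y) → ∀ t' : ℕ, ∃ y ∈ S, s = M ^ t' • y := by
    intro s
    by_cases h : ∀ t' : ℕ, ∃ y ∈ S, s = M ^ t' • y
    · exact ⟨0, fun _ => h⟩
    · push Not at h
      obtain ⟨t, ht⟩ := h
      exact ⟨t, fun ⟨y, hy, e⟩ => absurd e (ht y hy)⟩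
  choose t ht using h1
  obtain ⟨J, hJ⟩ := (hfin.image t).bddAbove
  have key : ∀ e : ℕ, ∀ x ∈ S, M ^ (J + e) • x = 0 → ∃ y ∈ S, M ^ J • x = M ^ (J + 1) • y := by
    intro e
    induction e with
    | zero => exact fun x _ hx => ⟨0, S.zero_mem, by simpa using hx⟩
    | succ e ih =>
      intro x hx h0
      have hs : t (M ^ (J + e) • x) ≤ J := hJ ⟨_, ⟨S.nsmul_mem hx _, by
        rw [← mul_smul, ← pow_succ']; exact h0⟩, rfl⟩
      obtain ⟨c, hc⟩ := Nat.exists_eq_add_of_le (hs.trans (Nat.le_add_right J e))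
      obtain ⟨y, hy, e1⟩ := ht (M ^ (J + e) • x) ⟨M ^ c • x, S.nsmul_mem hx _, by
        rw [← mul_smul, ← pow_add, ← hc]⟩ (J + e + 1)
      obtain ⟨y', hy', e2⟩ := ih (x - M • y) (S.sub_mem hx (S.nsmul_mem hy _)) (by
        rw [smul_sub, e1, ← mul_smul, ← pow_succ, sub_self])
      refine ⟨y' + y, S.add_mem hy' hy, ?_⟩
      rw [smul_add, ← e2, smul_sub, ← mul_smul, ← pow_succ, sub_add_cancel]
  refine ⟨J, fun x hx => ?_⟩
  obtain ⟨N, hN, hNx⟩ := htor x hx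
  obtain ⟨N', e, -, a2, a3⟩ := split_coprime (M := M) N hN
  obtain ⟨u, v, huv⟩ := bezout_split a2 x
  obtain ⟨y, hy, e2⟩ := key e (N' • x) (S.nsmul_mem hx _) (by
    rw [← mul_smul]
    refine nsmul_eq_zero_of_dvd hNx (a3.trans ⟨M ^ J, by ring⟩))
  refine ⟨u • y + v • x, S.add_mem (S.zsmul_mem hy _) (S.zsmul_mem hx _), ?_⟩
  calc M ^ J • x = M ^ J • (u • N' • x + v • M • x) := by rw [← huv]
    _ = u • (M ^ J • N' • x) + v • (M ^ (J + 1) • x) := by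
        rw [pow_succ, mul_smul, smul_add, smul_comm _ u, smul_comm _ v]
    _ = M ^ (J + 1) • (u • y + v • x) := by
        rw [e2, smul_add, smul_comm _ u, smul_comm _ v]

lemma Soc_eq (n : ℕ) (B1 B2 : AddSubgroup A) : Soc n B1 B2 =
    {x | x ∈ B1.map (QuotientAddGroup.mk' B2) ∧ n • x = 0} := by
  ext x
  constructor
  · rintro ⟨g, hg, rfl⟩
    refine ⟨⟨g, hg.1, rfl⟩, ?_⟩
    rw [← QuotientAddGroup.mk_nsmul]
    exact (QuotientAddGroup.eq_zero_iff _).2 hg.2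
  · rintro ⟨⟨g, hg, rfl⟩, h⟩
    refine ⟨g, ⟨hg, ?_⟩, rfl⟩
    rw [← QuotientAddGroup.eq_zero_iff, QuotientAddGroup.mk_nsmul]
    exact h

lemma Soc_fact (m e : ℕ) (B1 B2 : AddSubgroup A)
    (h : ∀ p : ℕ, p.Prime → p ≤ m → (Soc p B1 B2).Finite) :
    (Soc (m.factorial ^ e) B1 B2).Finite := by
  rw [Soc_eq]
  refine fin_smooth _ m (fun p h1 h2 => by rw [← Soc_eq]; exact h p h1 h2) _
    (pow_ne_zero _ m.factorial_ne_zero) fun p h1 h2 => ?_
  exact h1.dvd_factorial.1 (h1.dvd_of_dvd_pow h2)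

/-- The elements that are divisible by all powers of M inside B1, modulo B2. -/
def DivM (M : ℕ) (B1 B2 : AddSubgroup A) : AddSubgroup A where
  carrier := {h | h ∈ B1 ∧ ∀ t : ℕ, ∃ y ∈ B1, h - M ^ t • y ∈ B2}
  zero_mem' := ⟨B1.zero_mem, fun t => ⟨0, B1.zero_mem, by simp⟩⟩
  add_mem' := fun {a b} ha hb => ⟨B1.add_mem ha.1 hb.1, fun t => by
    obtain ⟨y, h1, h2⟩ := ha.2 t
    obtain ⟨z, h3, h4⟩ := hb.2 t
    refine ⟨y + z, B1.add_mem h1 h3, ?_⟩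
    convert B2.add_mem h2 h4 using 1
    rw [smul_add]; abel⟩
  neg_mem' := fun {a} ha => ⟨B1.neg_mem ha.1, fun t => by
    obtain ⟨y, h1, h2⟩ := ha.2 t
    refine ⟨-y, B1.neg_mem h1, ?_⟩
    convert B2.neg_mem h2 using 1
    rw [smul_neg]; abel⟩

lemma stab_mod {M : ℕ} (B1 B2 : AddSubgroup A) (htor : ∀ g ∈ B1, ∃ N : ℕ, 0 < N ∧ N • g ∈ B2)
    (hfin : (Soc M B1 B2).Finite) : ∃ J : ℕ, ∀ x ∈ B1, M ^ J • x ∈ DivM M B1 B2 := by
  rw [Soc_eq] at hfin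
  obtain ⟨J, hJ⟩ := stab (B1.map (QuotientAddGroup.mk' B2)) (by
    rintro _ ⟨g, hg, rfl⟩
    obtain ⟨N, h1, h2⟩ := htor g hg
    exact ⟨N, h1, by rw [← map_nsmul]; exact (QuotientAddGroup.eq_zero_iff _).2 h2⟩) hfin
  have h1 : ∀ x ∈ B1, ∃ y ∈ B1, M ^ J • x - M ^ (J + 1) • y ∈ B2 := by
    intro x hx
    obtain ⟨_, ⟨y, hy, rfl⟩, e⟩ := hJ _ ⟨x, hx, rfl⟩
    refine ⟨y, hy, ?_⟩
    rw [← QuotientAddGroup.eq_zero_iff, QuotientAddGroup.mk_sub, QuotientAddGroup.mk_nsmul,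
      QuotientAddGroup.mk_nsmul, sub_eq_zero]
    exact e
  have h2 : ∀ t : ℕ, ∀ x ∈ B1, ∃ y ∈ B1, M ^ J • x - M ^ (J + t) • y ∈ B2 := by
    intro t
    induction t with
    | zero => exact fun x hx => ⟨x, hx, by simp⟩
    | succ t ih =>
      intro x hx
      obtain ⟨y, hy, a⟩ := ih x hx
      obtain ⟨z, hz, b⟩ := h1 y hy
      refine ⟨z, hz, ?_⟩
      convert B2.add_mem a (B2.nsmul_mem b (M ^ t)) using 1
      rw [smul_sub, ← mul_smul, ← mul_smul, ← pow_add, ← pow_add, add_comm t J,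
        show t + (J + 1) = J + (t + 1) by omega]
      abel
  refine ⟨J, fun x hx => ⟨B1.nsmul_mem hx _, fun t => ?_⟩⟩
  obtain ⟨y, hy, a⟩ := h2 t x hx
  refine ⟨M ^ J • y, B1.nsmul_mem hy _, ?_⟩
  rwa [← mul_smul, ← pow_add, add_comm t J]

lemma chain_pow {q : ℕ} {d : ℕ → A} (h : ∀ j, q • d (j + 1) = d j) (j t : ℕ) :
    q ^ t • d (j + t) = d j := by
  induction t with
  | zero => simp
  | succ t ih => rw [pow_succ, mul_smul, ← add_assoc, h, ih]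

end alg

section top
variable {G : Type} [AddCommGroup G] [TopologicalSpace G] [IsTopologicalAddGroup G]
  [PolishSpace G]

lemma tame_structure2 (hG : Tame G) {B0 : ℕ → AddSubgroup G} (hB : IsBase B0) :
    ∃ B : ℕ → AddSubgroup G, IsBase B ∧ (∀ m, ∀ g ∈ B 0, ∃ N : ℕ, 0 < N ∧ N • g ∈ B m) ∧
      ∀ m k p : ℕ, p.Prime → p ≤ m → (Soc p (B m) (B k)).Finite := by
  obtain ⟨n0, h0⟩ := tame_torsion hG hB
  choose! n hn using fun p (hp : Nat.Prime p) => tame_socle hG hB hp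
  let ψ : ℕ → ℕ := fun m => n0 + m + ∑ p ∈ Finset.range (m + 1), n p
  have hmono : Monotone ψ := monotone_nat_of_le_succ fun k => by
    simp only [ψ, Finset.sum_range_succ _ (k + 1)]
    omega
  refine ⟨fun m => B0 (ψ m), hB.subseq ψ hmono fun k => by simp only [ψ]; omega,
    fun m g hg => h0 _ g (hB.anti (by simp only [ψ]; omega) hg), fun m k p hp hpm => ?_⟩
  refine (hn p hp (ψ k)).subset ?_
  rintro _ ⟨g, hg, rfl⟩
  refine ⟨g, ⟨hB.anti ?_ hg.1, hg.2⟩, rfl⟩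
  have : n p ≤ ∑ p ∈ Finset.range (m + 1), n p :=
    Finset.single_le_sum (f := n) (fun _ _ => Nat.zero_le _)
      (Finset.mem_range.2 (Nat.lt_succ_of_le hpm))
  simp only [ψ]
  omega

omit [IsTopologicalAddGroup G] in
lemma IsBase.sep {B : ℕ → AddSubgroup G} (hB : IsBase B) (y : G) (hy : ∀ j, y ∈ B j) : y = 0 := by
  by_contra hne
  obtain ⟨j, hj⟩ := hB.basis {y}ᶜ (isOpen_compl_singleton.mem_nhds (Ne.symm hne))
  exact hj (hy j) rfl

lemma exists_chain {B : ℕ → AddSubgroup G} (hB : IsBase B) {M m : ℕ}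
    (hst : ∀ k, ∃ J : ℕ, ∀ x ∈ B m, M ^ J • x ∈ DivM M (B m) (B k))
    (h : G) (hh : h ∈ DivM M (B m) (B (m + 1))) :
    ∃ x : ℕ → G, (∀ j, x j ∈ B m ∧ M • x (j + 1) = x j) ∧ x 0 - h ∈ B (m + 1) := by
  have step : ∀ (j : ℕ) (a : G), a ∈ DivM M (B m) (B (m + 1 + j)) →
      ∃ b, b ∈ DivM M (B m) (B (m + 1 + (j + 1))) ∧ M • b - a ∈ B (m + 1 + j) := by
    intro j a ha
    obtain ⟨J, hJ⟩ := hst (m + 1 + (j + 1))
    obtain ⟨y, hy, e⟩ := ha.2 (J + 1)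
    refine ⟨M ^ J • y, hJ y hy, ?_⟩
    rw [← mul_smul, ← pow_succ', ← neg_sub]
    exact (B _).neg_mem e
  choose f hf1 hf2 using step
  let s : (j : ℕ) → {a : G // a ∈ DivM M (B m) (B (m + 1 + j))} := fun j =>
    Nat.rec ⟨h, hh⟩ (fun j t => ⟨f j t.1 t.2, hf1 j t.1 t.2⟩) j
  have hs : ∀ j, M • (s (j + 1)).1 - (s j).1 ∈ B (m + 1 + j) := fun j => hf2 j (s j).1 (s j).2
  have hB' := hB.subseq (fun i => m + 1 + i) (fun a b hab => by simp only; omega)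
    (fun k => by omega)
  have hx : ∀ j, ∃ x, ∀ i, x - M ^ i • (s (j + i)).1 ∈ B (m + 1 + i) := by
    intro j
    refine hB'.complete (fun i => M ^ i • (s (j + i)).1) fun i => ?_
    have := (B _).nsmul_mem (hB.anti (show m + 1 + i ≤ m + 1 + (j + i) by omega) (hs (j + i)))
      (M ^ i)
    rwa [smul_sub, ← mul_smul, ← pow_succ] at this
  choose x hx using hx
  refine ⟨x, fun j => ⟨?_, ?_⟩, ?_⟩
  · have a1 := hB.anti (show m ≤ m + 1 + 0 by omega) (hx j 0)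
    have := (B m).add_mem a1 ((B m).nsmul_mem (s (j + 0)).2.1 (M ^ 0))
    simpa using this
  · rw [← sub_eq_zero]
    refine hB'.sep _ fun i => ?_
    have a1 := (B _).nsmul_mem (hx (j + 1) i) M
    have a2 := hB.anti (show m + 1 + i ≤ m + 1 + (i + 1) by omega) (hx j (i + 1))
    have e : (s (j + 1 + i)).1 = (s (j + (i + 1))).1 := by
      rw [show j + 1 + i = j + (i + 1) by omega]
    rw [e, smul_sub, ← mul_smul, ← pow_succ'] at a1
    have := (B _).sub_mem a1 a2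
    simpa using this
  · have := hx 0 0
    rw [pow_zero, one_smul] at this
    exact this

lemma small_part {B : ℕ → AddSubgroup G} (hB : IsBase B) {M m : ℕ} (hM : 0 < M)
    (htor : ∀ k, ∀ g ∈ B m, ∃ N : ℕ, 0 < N ∧ N • g ∈ B k)
    (hfin : ∀ k e, (Soc (M ^ e) (B m) (B k)).Finite) :
    ∃ T : Set (ℕ × (ℕ → G)), T.Finite ∧
      (∀ c ∈ T, 0 < c.1 ∧ ∀ j, c.2 j ∈ B m ∧ c.1 • c.2 (j + 1) = c.2 j) ∧
      ∀ E : AddSubgroup G, B (m + 1) ≤ E → (∀ c ∈ T, ∀ j, c.2 j ∈ E) →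
        ∀ (e : ℕ), ∀ g ∈ B m, M ^ e • g ∈ B (m + 1) → g ∈ E := by
  have hst : ∀ k, ∃ J : ℕ, ∀ x ∈ B m, M ^ J • x ∈ DivM M (B m) (B k) := fun k =>
    stab_mod _ _ (htor k) (by simpa using hfin k 1)
  obtain ⟨J, hJ⟩ := hst (m + 1)
  have h1 : ∀ σ : G ⧸ B (m + 1), ∃ x : ℕ → G, (∀ j, x j ∈ B m ∧ M • x (j + 1) = x j) ∧
      ∀ h ∈ DivM M (B m) (B (m + 1)), QuotientAddGroup.mk h = σ → h - x 0 ∈ B (m + 1) := by
    intro σ
    by_cases hσ : ∃ h ∈ DivM M (B m) (B (m + 1)), QuotientAddGroup.mk h = σ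
    · obtain ⟨h, hh, rfl⟩ := hσ
      obtain ⟨x, a1, a2⟩ := exists_chain hB hst h hh
      refine ⟨x, a1, fun h' _ e => ?_⟩
      have := (B _).sub_mem (QuotientAddGroup.eq_iff_sub_mem.1 e) a2
      simpa using this
    · exact ⟨0, fun j => ⟨(B m).zero_mem, by simp⟩, fun h hh e => absurd ⟨h, hh, e⟩ hσ⟩
  have h2 : ∀ σ : G ⧸ B (m + 1), ∃ y ∈ B m,
      ∀ h ∈ B m, QuotientAddGroup.mk h = σ → h - y ∈ B (m + 1) := by
    intro σ
    by_cases hσ : ∃ h ∈ B m, QuotientAddGroup.mk h = σ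
    · obtain ⟨h, hh, rfl⟩ := hσ
      exact ⟨h, hh, fun h' _ e => QuotientAddGroup.eq_iff_sub_mem.1 e⟩
    · exact ⟨0, (B m).zero_mem, fun h hh e => absurd ⟨h, hh, e⟩ hσ⟩
  choose x hx1 hx2 using h1
  choose y hy1 hy2 using h2
  refine ⟨(fun σ => (M, x σ)) '' Soc (M ^ 1) (B m) (B (m + 1)) ∪
    (fun σ => (1, fun _ => y σ)) '' Soc (M ^ J) (B m) (B (m + 1)),
    ((hfin _ 1).image _).union ((hfin _ J).image _), ?_, fun E hE hT => ?_⟩
  · rintro _ (⟨σ, -, rfl⟩ | ⟨σ, -, rfl⟩)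
    · exact ⟨hM, hx1 σ⟩
    · exact ⟨one_pos, fun _ => ⟨hy1 σ, one_smul _ _⟩⟩
  have c1 : ∀ (e : ℕ), ∀ h ∈ DivM M (B m) (B (m + 1)), M ^ e • h ∈ B (m + 1) → h ∈ E := by
    intro e
    induction e with
    | zero => exact fun h _ hh => hE (by simpa using hh)
    | succ e ih =>
      intro h hD hh
      let σ : G ⧸ B (m + 1) := QuotientAddGroup.mk (M ^ e • h)
      have hσ : σ ∈ Soc (M ^ 1) (B m) (B (m + 1)) := ⟨M ^ e • h, ⟨(B m).nsmul_mem hD.1 _, by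
        rwa [← mul_smul, ← pow_add, add_comm 1 e]⟩, rfl⟩
      have hc : ∀ j, M • x σ (j + 1) = x σ j := fun j => (hx1 σ j).2
      have a1 : x σ e ∈ E := hT _ (Or.inl ⟨σ, hσ, rfl⟩) e
      have a2 : x σ e ∈ DivM M (B m) (B (m + 1)) := ⟨(hx1 σ e).1, fun t =>
        ⟨x σ (e + t), (hx1 σ _).1, by rw [chain_pow hc, sub_self]; exact (B _).zero_mem⟩⟩
      have a3 := ih (h - x σ e) (AddSubgroup.sub_mem _ hD a2) (by
        have := chain_pow hc 0 e
        rw [zero_add] at this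
        rw [smul_sub, this]
        exact hx2 σ _ (AddSubgroup.nsmul_mem _ hD _) rfl)
      simpa using E.add_mem a3 a1
  intro e g hg he
  obtain ⟨z, hz, a⟩ := (hJ g hg).2 (J + J)
  have b1 : M ^ J • (g - M ^ J • z) ∈ B (m + 1) := by
    rwa [smul_sub, ← mul_smul, ← pow_add]
  have b2 : g - M ^ J • z ∈ B m := (B m).sub_mem hg ((B m).nsmul_mem hz _)
  have b3 : M ^ J • z ∈ E := c1 (e + J) _ (hJ z hz) (by
    have := (B _).sub_mem ((B _).nsmul_mem he (M ^ J)) ((B _).nsmul_mem b1 (M ^ e))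
    convert this using 1
    rw [pow_add]
    module)
  have b4 : y (QuotientAddGroup.mk (g - M ^ J • z)) ∈ E :=
    hT _ (Or.inr ⟨_, ⟨_, ⟨b2, b1⟩, rfl⟩, rfl⟩) 0
  have b5 := hE (hy2 _ _ b2 rfl)
  simpa using E.add_mem (E.add_mem b5 b4) b3

theorem level {B : ℕ → AddSubgroup G} (hB : IsBase B)
    (htor : ∀ m, ∀ g ∈ B 0, ∃ N : ℕ, 0 < N ∧ N • g ∈ B m)
    (hsoc : ∀ m k p : ℕ, p.Prime → p ≤ m → (Soc p (B m) (B k)).Finite) (m : ℕ) :
    ∃ (q N : ℕ → ℕ) (d : ℕ → ℕ → G),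
      (∀ i, 0 < q i ∧ 0 < N i ∧ (N i).Coprime m.factorial) ∧
      (∀ i j, d i j ∈ B m ∧ q i • d i (j + 1) = d i j) ∧
      (∀ k, ∃ i0, ∀ i, i0 ≤ i → q i = 1 ∧ N i • d i 0 ∈ B k) ∧
      ∀ E : AddSubgroup G, B (m + 1) ≤ E → (∀ i j, d i j ∈ E) → B m ≤ E := by
  classical
  have htor' : ∀ k, ∀ g ∈ B m, ∃ N : ℕ, 0 < N ∧ N • g ∈ B k := fun k g hg =>
    htor k g (hB.anti (Nat.zero_le m) hg)
  obtain ⟨T, hT, hT1, hT2⟩ := small_part hB m.factorial_pos htor'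
    fun k e => Soc_fact m e _ _ (hsoc m k)
  obtain ⟨a0, ha0⟩ := exists_seq_mod (B (m + 1)) (hB.isOpen _)
  let a : ℕ → G := fun i => if a0 i ∈ B m then a0 i else 0
  have ha1 : ∀ i, a i ∈ B m := fun i => by
    simp only [a]
    split_ifs with h
    exacts [h, (B m).zero_mem]
  have ha2 : ∀ g ∈ B m, ∃ i, g - a i ∈ B (m + 1) := by
    intro g hg
    obtain ⟨i, hi⟩ := ha0 g
    have : a0 i ∈ B m := by simpa using (B m).sub_mem hg (hB.anti (Nat.le_succ m) hi)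
    exact ⟨i, by simp only [a, if_pos this]; exact hi⟩
  have hw : ∀ i, ∃ N e : ℕ, 0 < N ∧ N.Coprime m.factorial ∧
      N • m.factorial ^ e • a i ∈ B (m + 1 + i) := by
    intro i
    obtain ⟨N0, h1, h2⟩ := htor' (m + 1 + i) _ (ha1 i)
    obtain ⟨N, e, a1, a2, c, hc⟩ := split_coprime (M := m.factorial) N0 h1
    refine ⟨N, e, a1, a2, ?_⟩
    rw [← mul_smul, hc, mul_comm, mul_smul]
    exact (B _).nsmul_mem h2 c
  choose N e hN1 hN2 hN3 using hw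
  let l := hT.toFinset.toList
  have hl : ∀ c, c ∈ l ↔ c ∈ T := fun c => by rw [Finset.mem_toList, Set.Finite.mem_toFinset]
  refine ⟨fun i => if h : i < l.length then l[i].1 else 1,
    fun i => if i < l.length then 1 else N (i - l.length),
    fun i => if h : i < l.length then l[i].2 else
      fun _ => m.factorial ^ e (i - l.length) • a (i - l.length), fun i => ?_, fun i j => ?_,
    fun k => ⟨l.length + k, fun i hi => ?_⟩, fun E hE hd g hg => ?_⟩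
  · by_cases h : i < l.length
    · simp only [dif_pos h, if_pos h]
      exact ⟨(hT1 _ ((hl _).1 (List.getElem_mem h))).1, one_pos, Nat.coprime_one_left _⟩
    · simp only [dif_neg h, if_neg h]
      exact ⟨one_pos, hN1 _, hN2 _⟩
  · by_cases h : i < l.length
    · simp only [dif_pos h]
      exact (hT1 _ ((hl _).1 (List.getElem_mem h))).2 j
    · simp only [dif_neg h]
      exact ⟨(B m).nsmul_mem (ha1 _) _, one_smul _ _⟩
  · have h : ¬ i < l.length := by omega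
    simp only [dif_neg h, if_neg h]
    exact ⟨trivial, hB.anti (by omega) (hN3 _)⟩
  · obtain ⟨i, hi⟩ := ha2 g hg
    have b1 : m.factorial ^ e i • a i ∈ E := by
      have := hd (l.length + i) 0
      have h : ¬ l.length + i < l.length := by omega
      simpa only [dif_neg h, Nat.add_sub_cancel_left] using this
    have b2 : N i • a i ∈ E := by
      refine hT2 E hE (fun c hc j => ?_) (e i) _ ((B m).nsmul_mem (ha1 i) _) ?_
      · obtain ⟨n, hn, rfl⟩ := List.mem_iff_getElem.1 ((hl c).2 hc)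
        have := hd n j
        simpa only [dif_pos hn] using this
      · rw [smul_comm]
        exact hB.anti (by omega) (hN3 i)
    obtain ⟨u, v, huv⟩ := bezout_split ((hN2 i).pow_right (e i)) (a i)
    have b3 : a i ∈ E := by
      rw [huv]
      exact E.add_mem (E.zsmul_mem b2 u) (E.zsmul_mem b1 v)
    simpa using E.add_mem (hE hi) b3

end top

end Pool.Agent.Lib.MP_a5f47e_lc
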