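import Mathlib
import Pool.Agent.Lib.MP_a5f47e_lc.Surj.Closed
import Pool.Agent.Lib.MP_a5f47e_lc.Surj.Level

set_option autoImplicit false

namespace Pool.Agent.Lib.MP_a5f47e_lc

open Topology Filter

/-- The homomorphism from the free abelian group that sends the j-th generator to d j. -/
noncomputable def ev {A : Type} [AddCommGroup A] (d : ℕ → A) : (ℕ →₀ ℤ) →+ A :=
  Finsupp.liftAddHom fun j => zmultiplesHom A (d j)

lemma ev_single {A : Type} [AddCommGroup A] (d : ℕ → A) (j : ℕ) (z : ℤ) :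
    ev d (Finsupp.single j z) = z • d j := by
  simp [ev]

/-- The rational value of a word: the j-th generator counts as 1 / q ^ j. -/
noncomputable def val (q : ℕ) : (ℕ →₀ ℤ) →+ ℚ := ev fun j => ((q : ℚ) ^ j)⁻¹

/-- The value divided by N, modulo one. -/
noncomputable def chr (q N : ℕ) : (ℕ →₀ ℤ) →+ QZ :=
  (QuotientAddGroup.mk' (AddSubgroup.zmultiples (1 : ℚ))).comp
    ((AddMonoidHom.mulRight (N : ℚ)⁻¹).comp (val q))

lemma chr_apply (q N : ℕ) (μ : ℕ →₀ ℤ) : chr q N μ = ((val q μ * (N : ℚ)⁻¹ : ℚ) : QZ) := rfl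

lemma block_rep {A : Type} [AddCommGroup A] {q : ℕ} (hq : 0 < q) {d : ℕ → A}
    (h : ∀ j, q • d (j + 1) = d j) (μ : ℕ →₀ ℤ) :
    ∃ L0 : ℕ, ∀ L, L0 ≤ L → ∃ s : ℤ, val q μ * (q : ℚ) ^ L = s ∧ ev d μ = s • d L := by
  have hq' : (q : ℚ) ≠ 0 := by exact_mod_cast hq.ne'
  induction μ using Finsupp.induction_linear with
  | zero => exact ⟨0, fun L _ => ⟨0, by simp, by simp⟩⟩
  | add μ ν h1 h2 =>
    obtain ⟨L1, h1⟩ := h1
    obtain ⟨L2, h2⟩ := h2
    refine ⟨max L1 L2, fun L hL => ?_⟩
    obtain ⟨s, a1, a2⟩ := h1 L (le_of_max_le_left hL)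
    obtain ⟨t, b1, b2⟩ := h2 L (le_of_max_le_right hL)
    exact ⟨s + t, by rw [map_add, add_mul, a1, b1, Int.cast_add],
      by rw [map_add, a2, b2, add_smul]⟩
  | single j z =>
    refine ⟨j, fun L hL => ?_⟩
    obtain ⟨t, rfl⟩ := Nat.exists_eq_add_of_le hL
    refine ⟨z * (q ^ t : ℕ), ?_, ?_⟩
    · rw [val, ev_single, zsmul_eq_mul, pow_add]
      push_cast
      field_simp
    · rw [ev_single, mul_smul, natCast_zsmul, chain_pow h]

lemma block_mem {A : Type} [AddCommGroup A] {q N : ℕ} (hq : 0 < q) (hN : 0 < N) {d : ℕ → A}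
    (h : ∀ j, q • d (j + 1) = d j) {μ : ℕ →₀ ℤ} (hμ : chr q N μ = 0) (B : AddSubgroup A)
    (hB : N • d 0 ∈ B) : ev d μ ∈ B := by
  have hN' : (N : ℚ) ≠ 0 := by exact_mod_cast hN.ne'
  rw [chr_apply, AddCircle.coe_eq_zero_iff] at hμ
  obtain ⟨z, hz⟩ := hμ
  obtain ⟨L, hL⟩ := block_rep hq h μ
  obtain ⟨s, a1, a2⟩ := hL L le_rfl
  have e1 : val q μ = z * N := by
    rw [zsmul_eq_mul, mul_one] at hz
    rw [hz]
    field_simp
  have e2 : s = z * (N : ℕ) * (q ^ L : ℕ) := by
    rw [e1] at a1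
    exact_mod_cast a1.symm
  have e3 := chain_pow h 0 L
  rw [zero_add] at e3
  rw [a2, e2, mul_smul, mul_smul, natCast_zsmul, natCast_zsmul, e3]
  exact B.zsmul_mem hB z

lemma ev_mem {A : Type} [AddCommGroup A] {d : ℕ → A} (B : AddSubgroup A) (h : ∀ j, d j ∈ B)
    (μ : ℕ →₀ ℤ) : ev d μ ∈ B := by
  induction μ using Finsupp.induction_linear with
  | zero => simp
  | add μ ν h1 h2 => rw [map_add]; exact B.add_mem h1 h2
  | single j z => rw [ev_single]; exact B.zsmul_mem (h j) z

lemma chr_one_tors (N : ℕ) (μ : ℕ →₀ ℤ) : N • chr 1 N μ = 0 := by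
  induction μ using Finsupp.induction_linear with
  | zero => simp
  | add μ ν h1 h2 => rw [map_add, smul_add, h1, h2, add_zero]
  | single j z =>
    rw [chr_apply, val, ev_single, ← AddCircle.coe_nsmul, AddCircle.coe_eq_zero_iff]
    by_cases hN : N = 0
    · exact ⟨0, by simp [hN]⟩
    · have hN' : (N : ℚ) ≠ 0 := by exact_mod_cast hN
      refine ⟨z, ?_⟩
      simp only [zsmul_eq_mul, nsmul_eq_mul, Nat.cast_one, one_pow, inv_one, mul_one]
      field_simp

/-- The code of a block with level m, chain multiplier q, order tag N and index i. -/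
def code (m q N i : ℕ) : ℕ := Nat.pair m (Nat.pair q (Nat.pair N i))

/-- The level of a block. -/
def bl (β : ℕ) : ℕ := β.unpair.1
/-- The chain multiplier of a block. -/
def bq (β : ℕ) : ℕ := β.unpair.2.unpair.1
/-- The order tag of a block. -/
def bN (β : ℕ) : ℕ := β.unpair.2.unpair.2.unpair.1
/-- The index of a block. -/
def bi (β : ℕ) : ℕ := β.unpair.2.unpair.2.unpair.2

lemma code_eq (β : ℕ) : code (bl β) (bq β) (bN β) (bi β) = β := by
  simp only [code, bl, bq, bN, bi, Nat.pair_unpair]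

/-- The free abelian group on all generators of all blocks. -/
abbrev Lam : Type := ℕ →₀ (ℕ →₀ ℤ)

/-- The character of a block used at level n. -/
noncomputable def kap (n β : ℕ) : (ℕ →₀ ℤ) →+ QZ :=
  if bl β = n ∧ (bN β).Coprime n.factorial then chr 1 (bN β) else 0

/-- All characters of the blocks of level n together. -/
noncomputable def om0 (n : ℕ) : Lam →+ (ℕ →₀ QZ) :=
  Finsupp.liftAddHom fun β => (Finsupp.singleAddHom β).comp (kap n β)

lemma om0_single (n β : ℕ) (μ : ℕ →₀ ℤ) :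
    om0 n (Finsupp.single β μ) = Finsupp.single β (kap n β μ) := by
  simp [om0]

lemma om0_apply (n : ℕ) (l : Lam) (β : ℕ) : om0 n l β = kap n β (l β) := by
  induction l using Finsupp.induction_linear with
  | zero => simp
  | add μ ν h1 h2 => simp [h1, h2]
  | single γ μ =>
    rw [om0_single]
    by_cases h : γ = β
    · subst h; simp
    · simp [h]

lemma om0_mem (n : ℕ) (l : Lam) : om0 n l ∈ An n := by
  induction l using Finsupp.induction_linear with
  | zero => simp
  | add μ ν h1 h2 => rw [map_add]; exact (An n).add_mem h1 h2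
  | single β μ =>
    rw [om0_single, kap]
    split_ifs with h
    · intro p hp hpn
      refine pp_eq_zero ⟨bN β, h.2.coprime_dvd_right (hp.dvd_factorial.2 hpn), ?_⟩
      rw [Finsupp.smul_single, chr_one_tors, Finsupp.single_zero]
    · simp

/-- The homomorphism from the free group into the tame product. -/
noncomputable def theta : Lam →+ ∀ n, Hn n := AddMonoidHom.pi fun n =>
  ((om0 n).codRestrict (An n) (om0_mem n)).prod
    ((chr (bq n.unpair.1) n.unpair.2).comp (Finsupp.applyAddHom n.unpair.1))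

lemma theta_eq_zero (l : Lam) (n : ℕ) : theta l n = 0 ↔
    (∀ β, kap n β (l β) = 0) ∧ chr (bq n.unpair.1) n.unpair.2 (l n.unpair.1) = 0 := by
  constructor
  · intro h
    refine ⟨fun β => ?_, congrArg Prod.snd h⟩
    have h1 : om0 n l = 0 := congrArg Subtype.val (congrArg Prod.fst h)
    rw [← om0_apply, h1]
    rfl
  · rintro ⟨h1, h2⟩
    refine Prod.ext (Subtype.ext ?_) h2
    show om0 n l = 0
    ext β
    rw [om0_apply, h1]
    rfl

lemma bdd_two (f : ℕ → ℕ → ℕ) (a : ℕ) (b : ℕ → ℕ) :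
    ∃ n, a ≤ n ∧ ∀ m < a, ∀ i < b m, f m i < n := by
  obtain ⟨M, hM⟩ := (((Finset.range a).sigma fun j => Finset.range (b j)).finite_toSet.image
    (fun x : (_ : ℕ) × ℕ => f x.1 x.2)).bddAbove
  refine ⟨max a (M + 1), le_max_left _ _, fun j hj i hi => ?_⟩
  have : f j i ≤ M := hM ⟨⟨j, i⟩, by simp [hj, hi], rfl⟩
  omega

/-- The surjectively universal group, written additively. -/
abbrev VV : Type := Disc (ℕ →₀ ℤ) × Cl theta

theorem VV_tame : Tame VV :=
  tame_prod (Cl_tame Hn_tor (fun p hp => ⟨p, Hn_linC hp⟩) theta)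

lemma VV_polish : PolishSpace VV := by
  have h1 : PolishSpace ((n : ℕ) → Hn n) := ⟨⟩
  have h2 : PolishSpace (Cl theta) := (Cl_closed theta).polishSpace
  exact ⟨⟩

lemma VV_na : ∀ s ∈ 𝓝 (0 : VV), ∃ V : AddSubgroup VV, IsOpen (V : Set VV) ∧ (V : Set VV) ⊆ s := by
  intro s hs
  have hc : Continuous fun v : Cl theta => ((0, v) : VV) := Continuous.prodMk_right 0
  obtain ⟨n, hn⟩ := Cl_nhds theta (hc.continuousAt.preimage_mem_nhds (x := 0) hs)
  let V : AddSubgroup VV :=
    { carrier := {u | u.1 = 0 ∧ Agree n u.2.1 0}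
      zero_mem' := ⟨rfl, Agree.refl _ _⟩
      add_mem' := fun {a b} ha hb => ⟨by rw [Prod.fst_add, ha.1, hb.1, add_zero], fun i hi => by
        have a1 : a.2.1 i = 0 := ha.2 i hi
        have a2 : b.2.1 i = 0 := hb.2 i hi
        simp [a1, a2]⟩
      neg_mem' := fun {a} ha => ⟨by rw [Prod.fst_neg, ha.1, neg_zero], fun i hi => by
        have a1 : a.2.1 i = 0 := ha.2 i hi
        simp [a1]⟩ }
  refine ⟨V, V.isOpen_of_mem_nhds (g := 0) ?_, ?_⟩
  · exact prod_mem_nhds (s := {0}) ((isOpen_discrete _).mem_nhds rfl) (Cl_agree_nhds theta n)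
  · rintro ⟨a, v⟩ ⟨h1, h2⟩
    have h1' : a = 0 := h1
    rw [h1']
    exact hn v h2

theorem exists_surjection {G : Type} [AddCommGroup G] [TopologicalSpace G]
    [IsTopologicalAddGroup G] [PolishSpace G]
    (hna : ∀ s ∈ 𝓝 (0 : G), ∃ V : AddSubgroup G, IsOpen (V : Set G) ∧ (V : Set G) ⊆ s)
    (hG : Tame G) : ∃ f : VV →+ G, Continuous f ∧ Function.Surjective f := by
  classical
  obtain ⟨B0, hB0⟩ := exists_base hna
  obtain ⟨B, hB, htor, hsoc⟩ := tame_structure2 hG hB0
  choose q N d h1 h2 h3 h4 using level hB htor hsoc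
  choose i0 h3 using h3
  choose k hk1 hk2 using fun j m i => htor j (d m i 0) (hB.anti (Nat.zero_le m) (h2 m i 0).1)
  let D : ℕ → ℕ → G := fun β =>
    if bq β = q (bl β) (bi β) ∧ bN β = N (bl β) (bi β) then d (bl β) (bi β) else 0
  let ψ : Lam →+ G := Finsupp.liftAddHom fun β => ev (D β)
  have hψ : ∀ β μ, ψ (Finsupp.single β μ) = ev (D β) μ := fun β μ => by simp [ψ]
  obtain ⟨φ, hφ1, hφ2⟩ := exists_onto hB theta ψ (fun j => by
      obtain ⟨n, hn1, hn2⟩ := bdd_two
        (fun m i => Nat.pair (code m (q m i) (N m i) i) (k j m i)) j (fun m => i0 m j)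
      refine ⟨n, fun l hl => ?_⟩
      have hl' : ∀ c < n, theta l c = 0 := hl
      simp only [ψ, Finsupp.liftAddHom_apply]
      refine AddSubgroup.sum_mem _ fun β _ => ?_
      by_cases hm : bq β = q (bl β) (bi β) ∧ bN β = N (bl β) (bi β)
      swap
      · exact ev_mem _ (fun t => by simp [D, if_neg hm]) _
      simp only [D, if_pos hm]
      by_cases hj : j ≤ bl β
      · exact ev_mem _ (fun t => hB.anti hj (h2 _ _ t).1) _
      have hch : ∀ t, q (bl β) (bi β) • d (bl β) (bi β) (t + 1) = d (bl β) (bi β) t :=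
        fun t => (h2 _ _ t).2
      by_cases hi : i0 (bl β) j ≤ bi β
      · obtain ⟨a1, a2⟩ := h3 (bl β) j _ hi
        have a3 := ((theta_eq_zero l (bl β)).1 (hl' _ (by omega))).1 β
        rw [kap, if_pos ⟨rfl, hm.2 ▸ (h1 _ _).2.2⟩, hm.2, ← a1] at a3
        exact block_mem (h1 _ _).1 (h1 _ _).2.1 hch a3 _ a2
      · have a1 := hn2 (bl β) (by omega) (bi β) (by omega)
        simp only [← hm.1, ← hm.2, code_eq] at a1
        have a3 := ((theta_eq_zero l _).1 (hl' _ a1)).2
        rw [Nat.unpair_pair, hm.1] at a3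
        exact block_mem (h1 _ _).1 (hk1 _ _ _) hch a3 _ (hk2 _ _ _))
    (fun m g hg => by
      let E : AddSubgroup G :=
        { carrier := {g | ∃ l, Agree m (theta l) 0 ∧ g - ψ l ∈ B (m + 1)}
          zero_mem' := ⟨0, by rw [map_zero]; exact Agree.refl _ _, by simp⟩
          add_mem' := by
            rintro a b ⟨l, a1, a2⟩ ⟨l', b1, b2⟩
            refine ⟨l + l', fun i hi => by simp [a1 i hi, b1 i hi], ?_⟩
            convert (B _).add_mem a2 b2 using 1
            rw [map_add]; abel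
          neg_mem' := by
            rintro a ⟨l, a1, a2⟩
            refine ⟨-l, fun i hi => by simp [a1 i hi], ?_⟩
            convert (B _).neg_mem a2 using 1
            rw [map_neg]; abel }
      refine h4 m E (fun b hb => ⟨0, by rw [map_zero]; exact Agree.refl _ _, by simpa using hb⟩)
        (fun i t => ?_) hg
      have e1 : bl (code m (q m i) (N m i) i) = m := by simp [bl, code]
      have e2 : bq (code m (q m i) (N m i) i) = q m i := by simp [bq, code]
      have e3 : bN (code m (q m i) (N m i) i) = N m i := by simp [bN, code]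
      have e4 : bi (code m (q m i) (N m i) i) = i := by simp [bi, code]
      refine ⟨Finsupp.single (code m (q m i) (N m i) i) (Finsupp.single t 1), fun c hc => ?_, ?_⟩
      · refine (theta_eq_zero _ c).2 ⟨fun β => ?_, ?_⟩
        · by_cases hβ : code m (q m i) (N m i) i = β
          · rw [kap, if_neg (fun h => by rw [← hβ, e1] at h; omega)]
            rfl
          · rw [Finsupp.single_eq_of_ne' hβ, map_zero]
        · have b1 : c.unpair.1 ≤ c := Nat.unpair_left_le c
          have b2 : m ≤ code m (q m i) (N m i) i := Nat.left_le_pair _ _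
          rw [Finsupp.single_eq_of_ne' (by omega), map_zero]
      · rw [hψ, ev_single]
        simp [D, e1, e2, e3, e4])
  obtain ⟨a, ha⟩ := exists_seq_mod (B 0) (hB.isOpen 0)
  let χ : Disc (ℕ →₀ ℤ) →+ G := ev a
  refine ⟨χ.coprod φ, ?_, fun g => ?_⟩
  · exact ((continuous_of_discreteTopology (f := χ)).comp continuous_fst).add
      (hφ1.comp continuous_snd)
  · obtain ⟨i, hi⟩ := ha g
    obtain ⟨x, hx⟩ := hφ2 _ hi
    refine ⟨(Finsupp.single i 1, x), ?_⟩
    show ev a (Finsupp.single i 1) + φ x = g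
    rw [ev_single, hx]
    simp

end Pool.Agent.Lib.MP_a5f47e_lc
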